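import Pool.Agent.TH167.T3.Nine

set_option autoImplicit false

/-!
# Effective classes with at most nine multiplicities larger than three
-/

namespace Pool.Agent.TH167.T3

open MvPolynomial Pool.Agent.W609 Pool.Agent.W609.CR Pool.Agent.TH167.SH Pool.Agent.TH167.TT
  Pool.Agent.TH167.DD

/-- A class which is nonnegative on the `(-1)`-curves is nonnegative on all curves. -/
theorem nef_gen {K : Type} [Field K] [CharZero K] {r d : ℕ} {w : Fin (r + 4) → ℕ}
    {P : Fin (r + 4) → Fin 2 → K}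
    (hP : AlgebraicIndependent ℚ (fun ij : Fin (r + 4) × Fin 2 => P ij.1 ij.2))
    {f : MvPolynomial (Fin 3) K} (hf0 : f ≠ 0) (hfd : f.IsHomogeneous d)
    (hford : ∀ j, Ord (aff (P j)) (w j) f)
    (hnef : ∀ (C : MvPolynomial (Fin 3) K) (e : ℕ) (u : Fin (r + 4) → ℕ), Exc P C e u →
      0 ≤ ip d w e u)
    {G : MvPolynomial (Fin 3) K} {e : ℕ} {u : Fin (r + 4) → ℕ} (hG : Irreducible G)
    (hGe : G.IsHomogeneous e) (hu : ∀ j, Ord (aff (P j)) (u j) G)
    (hneg : (∀ j, u j ≤ w j) → ip e u e u < 0 → ip e u e u = -1 ∧ kk e u = 1) :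
    0 ≤ ip d w e u := by
  classical
  have hinj := inj_of_alg hP
  have hG0 := hG.ne_zero
  have he0 := deg_pos hG hGe
  -- `f = G ^ k * g`
  obtain ⟨k, g, hgnd, hfg⟩ := WfDvdMonoid.max_power_factor hf0 hG
  have hg0 : g ≠ 0 := fun h => hf0 (by rw [hfg, h, mul_zero])
  have hgh := Pool.Agent.Chud.homog_of_dvd hfd hf0 (Dvd.intro_left _ hfg.symm)
  obtain ⟨b, hb⟩ : ∃ b, b = g.totalDegree := ⟨_, rfl⟩
  rw [← hb] at hgh
  choose v hv using fun j => exists_ord (p := P j) hg0 hgh
  have hdeg : d = k * e + b := by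
    have h1 := (hGe.pow k).mul hgh
    rw [← hfg] at h1
    have h2 := h1.inj_right hfd hf0
    rw [← h2]
    ring
  have hord : ∀ j, w j = k * u j + v j := by
    intro j
    have h1 : ∀ n : ℕ, Ord (aff (P j)) (n * u j) (G ^ n) := by
      intro n
      induction n with
      | zero =>
        rw [Nat.zero_mul, pow_zero]
        refine ⟨van_zero _ _, fun h => ?_⟩
        have := van_le (one_ne_zero) (isHomogeneous_one (Fin 3) K) h
        omega
      | succ n ih =>
        rw [pow_succ, Nat.succ_mul]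
        exact ord_mul ih (hu j)
    have h2 := ord_mul (h1 k) (hv j)
    rw [← hfg] at h2
    exact ord_unique (hford j) h2
  have hbez := bez hinj hG hGe (fun j => (hu j).1) hg0 hgh (fun j => (hv j).1) hgnd
  have hgG : 0 ≤ ip b v e u := by
    unfold ip
    have h3 : (∑ j, (v j : ℤ) * u j) = ((∑ j, u j * v j : ℕ) : ℤ) := by
      push_cast
      exact Finset.sum_congr rfl fun j _ => mul_comm _ _
    rw [h3, mul_comm (b : ℤ)]
    have : ((∑ j, u j * v j : ℕ) : ℤ) ≤ ((e * b : ℕ) : ℤ) := by exact_mod_cast hbez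
    push_cast at this ⊢
    linarith
  have hkG : ip d w e u = k * ip e u e u + ip b v e u := by
    unfold ip
    rw [hdeg]
    have h1 : ∀ j, (w j : ℤ) * u j = k * ((u j : ℤ) * u j) + (v j : ℤ) * u j := by
      intro j
      rw [hord j]
      push_cast
      ring
    rw [Finset.sum_congr rfl fun j _ => h1 j, Finset.sum_add_distrib, ← Finset.mul_sum]
    push_cast
    ring
  rcases le_or_gt 0 (ip e u e u) with h | h
  · rw [hkG]
    positivity
  · rcases Nat.eq_zero_or_pos k with hk | hk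
    · rw [hkG, hk]
      simpa using hgG
    · obtain ⟨c1, c2⟩ := hneg (fun j => by
        have h2 := hord j
        have h3 : u j ≤ k * u j := Nat.le_mul_of_pos_left _ hk
        omega) h
      exact hnef G e u ⟨hG, hGe, hu, self_iff.2 c1, can_iff.2 c2⟩

/-- The decomposition into disjoint `(-1)`-curves and a nef class. -/
theorem zar {K : Type} [Field K] [CharZero K] [IsAlgClosed K] {r : ℕ}
    {P : Fin (r + 4) → Fin 2 → K}
    (hP : AlgebraicIndependent ℚ (fun ij : Fin (r + 4) × Fin 2 => P ij.1 ij.2)) {d : ℕ}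
    {w : Fin (r + 4) → ℕ} (h9 : (Finset.univ.filter fun j => 3 < w j).card ≤ 9)
    (hpos : 0 < Module.finrank K ↥(VS (fun j => aff (P j)) w d)) :
    ∃ (d' : ℕ) (w' : Fin (r + 4) → ℕ) (k : ℕ) (C : Fin k → MvPolynomial (Fin 3) K)
      (e : Fin k → ℕ) (u : Fin k → Fin (r + 4) → ℕ) (N : Fin k → ℕ),
      Dcp P d w d' w' C e u N ∧
      (∀ (G : MvPolynomial (Fin 3) K) (e : ℕ) (u : Fin (r + 4) → ℕ), Irreducible G →
        G.IsHomogeneous e → (∀ j, Ord (aff (P j)) (u j) G) → 0 ≤ ip d' w' e u) ∧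
      0 ≤ ip d' w' d' w' ∧
      Module.finrank K ↥(VS (fun j => aff (P j)) w' d') =
        Module.finrank K ↥(VS (fun j => aff (P j)) w d) := by
  obtain ⟨d', w', k, C, e, u, N, hD, hdim, -⟩ := main2 d P hP w hpos
  have hw' : ∀ j, w' j ≤ w j := by
    intro j
    rw [hD.mul j]
    omega
  obtain ⟨f, hf, hf0, hford⟩ := exists_exact hP (by rw [hdim]; exact hpos)
  have hfd := ((mem_VS _ _ _ _).1 hf).1
  have hnef : ∀ (G : MvPolynomial (Fin 3) K) (e : ℕ) (u : Fin (r + 4) → ℕ), Irreducible G →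
      G.IsHomogeneous e → (∀ j, Ord (aff (P j)) (u j) G) → 0 ≤ ip d' w' e u :=
    fun G e u hG hGe hu => nef_gen hP hf0 hfd hford hD.nef hG hGe hu fun hle hneg =>
      neg9 ((card_mono3 fun j => (hle j).trans (hw' j)).trans h9) hP hG hGe hu hneg
  exact ⟨d', w', k, C, e, u, N, ⟨hD.exc, hD.pos, hD.orth, hD.deg, hD.mul, hD.zero⟩, hnef,
    nef_self hnef hf0 d' w' hfd hford, hdim⟩

end Pool.Agent.TH167.T3
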