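import Pool.Agent.TH167.T3.Neg

set_option autoImplicit false

/-!
# Negative curves with at most nine multiplicities larger than three
-/

namespace Pool.Agent.TH167.T3

open MvPolynomial Pool.Agent.W609 Pool.Agent.W609.CR Pool.Agent.TH167.SH Pool.Agent.TH167.TT
  Pool.Agent.TH167.DD

theorem ex_sum' {n : ℕ} (v : Fin n → ℕ) (f : ℕ → ℤ) (hf : f 0 = 0) (k : ℕ) :
    ∑ j, f (v j) = ∑ i ∈ Finset.range (n + k), f (ex v i) := by
  rw [Finset.sum_range_add, ← Fin.sum_univ_eq_sum_range,
    Finset.sum_eq_zero (s := Finset.range k) (fun i _ => by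
      have : ex v (n + i) = 0 := dif_neg (by omega)
      rw [this, hf]), add_zero]
  refine Finset.sum_congr rfl fun j _ => ?_
  have : ex v j.1 = v j := dif_pos j.2
  rw [this]

theorem ex_split {n : ℕ} (v : Fin n → ℕ) (f : ℕ → ℤ) (hf : f 0 = 0) :
    ∑ j, f (v j) = ∑ i ∈ Finset.range 9, f (ex v i) +
      ∑ i ∈ Finset.Ico 9 (n + 11), f (ex v i) := by
  rw [Finset.sum_range_add_sum_Ico _ (show 9 ≤ n + 11 by omega)]
  exact ex_sum' v f hf 11

/-- Negative curves with at most nine multiplicities larger than three. -/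
theorem neg9 {K : Type} [Field K] [CharZero K] [IsAlgClosed K] {r e : ℕ}
    {w : Fin (r + 4) → ℕ} (h9 : (Finset.univ.filter fun j => 3 < w j).card ≤ 9)
    {P : Fin (r + 4) → Fin 2 → K}
    (hP : AlgebraicIndependent ℚ (fun ij : Fin (r + 4) × Fin 2 => P ij.1 ij.2))
    {G : MvPolynomial (Fin 3) K} (hG : Irreducible G) (hGe : G.IsHomogeneous e)
    (hord : ∀ j, Ord (aff (P j)) (w j) G) (hneg : ip e w e w < 0) :
    ip e w e w = -1 ∧ kk e w = 1 := by
  classical
  rcases irr_std e P hP w G hG hGe hord with h | ⟨P1, e1, w1, G1, a1, a2, a3, a4, a5, a6, a7, a8,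
    a9⟩
  · exact h
  rcases Nat.lt_or_ge (∑ j ∈ Finset.univ.filter (fun j => 3 < w1 j), w1 j) (3 * e1) with hs | hs
  · have h1 := neg3 hs a1 a2 a3 a4 (by omega)
    omega
  exfalso
  have hkk : kk e1 w1 < 0 := by
    by_contra hcon
    push Not at hcon
    rw [kk_cast] at hcon
    have h6 := red_ip a5 (fun j => van_le a2.ne_zero a3 (a4 j).1) (by omega)
    omega
  have hc9 := (card_mono3 a6).trans h9
  obtain ⟨σ, hσ⟩ := exists_sort w1
  obtain ⟨v, hv⟩ : ∃ v : Fin (r + 4) → ℕ, v = fun j => w1 (σ j) := ⟨_, rfl⟩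
  rw [← hv] at hσ
  have hval : ∀ (i : ℕ) (hi : i < r + 4), w1 (σ ⟨i, hi⟩) = ex v i := by
    intro i hi
    unfold ex
    rw [dif_pos hi, hv]
  have hanti := ex_anti hσ
  have hthree : ex v 0 + ex v 1 + ex v 2 ≤ e1 := by
    rw [← hval 0 (by omega), ← hval 1 (by omega), ← hval 2 (by omega)]
    refine a5 _ _ _ ?_ ?_ ?_
    · exact fun h => absurd (congrArg Fin.val (σ.injective h)) (by simp)
    · exact fun h => absurd (congrArg Fin.val (σ.injective h)) (by simp)
    · exact fun h => absurd (congrArg Fin.val (σ.injective h)) (by simp)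
  obtain ⟨c1, c2, c3⟩ := key9 (e := e1) (q := fun i => (ex v i : ℤ))
    (fun i => by exact_mod_cast hanti (Nat.le_succ i)) (by exact_mod_cast hthree)
  have hV9 : ex v 9 ≤ 3 := by
    by_contra hcon
    push Not at hcon
    have hr : 9 < r + 4 := by
      by_contra h
      have : ex v 9 = 0 := dif_neg h
      omega
    have h1 : (Finset.univ.filter fun i : Fin (r + 4) => i.1 < 10).card ≤
        (Finset.univ.filter fun j => 3 < w1 (σ j)).card := by
      refine Finset.card_le_card fun i hi => ?_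
      rw [Finset.mem_filter] at hi ⊢
      refine ⟨hi.1, ?_⟩
      have h2 := hval i.1 i.2
      have h3 : (⟨i.1, i.2⟩ : Fin (r + 4)) = i := rfl
      rw [h3] at h2
      rw [h2]
      have := hanti (show i.1 ≤ 9 by omega)
      omega
    rw [card_perm w1 σ 3] at h1
    have h4 : (Finset.univ.filter fun i : Fin (r + 4) => i.1 < 10).card = 10 := by
      rw [Fin.card_filter_val_lt]
      omega
    omega
  -- the sums
  have s1 : ((∑ j ∈ Finset.univ.filter (fun j => 3 < w1 j), w1 j : ℕ) : ℤ) ≤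
      ∑ i ∈ Finset.range 9, (ex v i : ℤ) := by
    rw [Finset.sum_filter, ← Equiv.sum_comp σ (fun j => if 3 < w1 j then w1 j else 0)]
    have h1 := ex_split v (fun m => if 3 < m then (m : ℤ) else 0) (by simp)
    have h2 : ((∑ j, (if 3 < w1 (σ j) then w1 (σ j) else 0) : ℕ) : ℤ) =
        ∑ j, (if 3 < v j then (v j : ℤ) else 0) := by
      rw [hv]
      push_cast
      rfl
    rw [h2, h1, Finset.sum_eq_zero (s := Finset.Ico 9 (r + 4 + 11)) (fun i hi => by
      rw [Finset.mem_Ico] at hi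
      have := hanti hi.1
      rw [if_neg (by omega)]), add_zero]
    refine Finset.sum_le_sum fun i _ => ?_
    split_ifs
    · exact le_rfl
    · exact Int.natCast_nonneg _
  have hx : 3 * (e1 : ℤ) - ∑ i ∈ Finset.range 9, (ex v i : ℤ) = 0 := by
    have : (3 * (e1 : ℤ)) ≤ ((∑ j ∈ Finset.univ.filter (fun j => 3 < w1 j), w1 j : ℕ) : ℤ) := by
      exact_mod_cast hs
    linarith
  have hD : (e1 : ℤ) ^ 2 - ∑ i ∈ Finset.range 9, (ex v i : ℤ) ^ 2 = 0 := by
    rw [hx] at c2 c3
    linarith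
  have hV9' : 1 ≤ ex v 9 := by
    by_contra hcon
    have h1 := ex_split v (fun m => (m : ℤ)) rfl
    rw [Finset.sum_eq_zero (s := Finset.Ico 9 (r + 4 + 11)) (fun i hi => by
      rw [Finset.mem_Ico] at hi
      have := hanti hi.1
      have h2 : ex v i = 0 := by omega
      rw [h2]
      rfl), add_zero] at h1
    rw [← kk_perm e1 w1 σ] at hkk
    unfold kk at hkk
    have h3 : ∑ j, ((w1 (σ j) : ℕ) : ℤ) = ∑ j, (v j : ℤ) := by rw [hv]
    rw [h3, h1] at hkk
    linarith
  have hr : 9 < r + 4 := by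
    by_contra h
    have : ex v 9 = 0 := dif_neg h
    omega
  -- the class of the first nine points
  obtain ⟨w2, hw2⟩ : ∃ w2 : Fin (r + 4) → ℕ,
    w2 = fun j => if (σ.symm j).1 < 9 then w1 j else 0 := ⟨_, rfl⟩
  have hle : ∀ j, w2 j ≤ w1 j := by
    intro j
    rw [hw2]
    dsimp only
    split_ifs
    · exact le_rfl
    · exact Nat.zero_le _
  have hred2 : Reduced e1 w2 := by
    intro i j k hij hik hjk
    have := a5 i j k hij hik hjk
    have h1 := hle i
    have h2 := hle j
    have h3 := hle k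
    omega
  have hv2 : ∀ i, w2 (σ i) = if i.1 < 9 then v i else 0 := by
    intro i
    rw [hw2, hv]
    dsimp only
    rw [σ.symm_apply_apply]
  have hc2 : (Finset.univ.filter fun j => 2 < w2 j).card ≤ 9 := by
    rw [← card_perm w2 σ 2]
    refine card_of_nine fun i hi => ?_
    rw [hv2, if_neg (by omega)]
    exact Nat.zero_le _
  have hG2 : G1 ∈ VS (fun j => aff (P1 j)) w2 e1 :=
    (mem_VS _ _ _ _).2 ⟨a3, fun j => van_mono (hle j) (a4 j).1⟩
  have hpos := pos_of_mem hG2 a2.ne_zero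
  have hdim := red9 hred2 hc2 notMem_filter a1 hpos
  have hsum : ∀ f : ℕ → ℤ, f 0 = 0 → ∑ j, f (w2 j) = ∑ i ∈ Finset.range 9, f (ex v i) := by
    intro f hf
    rw [← Equiv.sum_comp σ (fun j => f (w2 j))]
    have h1 := ex_split (fun i => w2 (σ i)) f hf
    rw [h1]
    have h2 : ∀ i, ex (fun i => w2 (σ i)) i = if i < 9 then ex v i else 0 := by
      intro i
      unfold ex
      by_cases hi : i < r + 4
      · rw [dif_pos hi, dif_pos hi]
        exact hv2 ⟨i, hi⟩
      · rw [dif_neg hi, dif_neg hi]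
        simp
    rw [Finset.sum_eq_zero (s := Finset.Ico 9 (r + 4 + 11)) (fun i hi => by
      rw [Finset.mem_Ico] at hi
      rw [h2, if_neg (by omega), hf]), add_zero]
    refine Finset.sum_congr rfl fun i hi => ?_
    rw [Finset.mem_range] at hi
    rw [h2, if_pos hi]
  have hchi := two_chi e1 w2
  have hip : ip e1 w2 e1 w2 = 0 := by
    unfold ip
    have h1 : ∑ j, (w2 j : ℤ) * w2 j = ∑ j, (w2 j : ℤ) ^ 2 :=
      Finset.sum_congr rfl fun j _ => (sq _).symm
    rw [h1, hsum (fun m => (m : ℤ) ^ 2) (by norm_num), ← sq]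
    exact hD
  have hk0 : kk e1 w2 = 0 := by
    unfold kk
    rw [hsum (fun m => (m : ℤ)) rfl]
    exact hx
  rw [hip, hk0] at hchi
  have hj : w2 (σ ⟨9, hr⟩) = 0 := by
    rw [hv2]
    simp
  have hdrop := simple_drop a1 hj hpos
  have hG3 : G1 ∈ VS (fun j => aff (P1 j)) (Function.update w2 (σ ⟨9, hr⟩) 1) e1 := by
    refine (mem_VS _ _ _ _).2 ⟨a3, fun j => van_mono ?_ (a4 j).1⟩
    by_cases h : j = σ ⟨9, hr⟩
    · rw [h, Function.update_self, hval 9 hr]
      exact hV9'
    · rw [Function.update_of_ne h]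
      exact hle j
  have hpos3 := pos_of_mem hG3 a2.ne_zero
  omega

end Pool.Agent.TH167.T3
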