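import Pool.Agent.TH167.T3.Bound
import Pool.Agent.TH167.SM.Pos3

set_option autoImplicit false

/-!
# The superabundance of systems with an irreducible member
-/

namespace Pool.Agent.TH167.T3

open MvPolynomial Pool.Agent.W609 Pool.Agent.W609.CR Pool.Agent.TH167.SH Pool.Agent.TH167.TT
  Pool.Agent.TH167.DD Pool.Agent.H248R5 Pool.Agent.H248R6 Pool.Agent.W641.CR Pool.Agent.TH167.SM

/-- Systems with an irreducible member at generic points. -/
theorem boundG {K : Type} [Field K] [CharZero K] [IsAlgClosed K] {s : ℕ}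
    {P : Fin s → Fin 2 → K}
    (hP : AlgebraicIndependent ℚ (fun ij : Fin s × Fin 2 => P ij.1 ij.2)) {w : Fin s → ℕ}
    {d : ℕ} (S : Finset (Fin s)) (hw : ∑ j ∈ S, w j < 3 * d)
    {f : MvPolynomial (Fin 3) K} (hf : f ∈ VS (fun j => aff (P j)) w d) (hirr : Irreducible f) :
    (Module.finrank K ↥(VS (fun j => aff (P j)) w d) : ℤ) ≤
      chi d w + ((∑ j, (if j ∈ S then 0 else w j - 2) : ℕ) : ℤ) := by
  classical
  have hfm := (mem_VS _ _ _ _).1 hf
  rcases Nat.lt_or_ge d 2 with hd2 | hd2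
  · have h1 : ∑ j ∈ Finset.univ.filter (fun i => 2 < w i), w j < 3 * d := by
      rw [Finset.sum_eq_zero]
      · omega
      · intro j hj
        have h2 := (Finset.mem_filter.1 hj).2
        have h3 := van_le hirr.ne_zero hfm.1 (hfm.2 j)
        omega
    have h2 := (general_smoothP hP h1 hf hirr).1
    rw [h2]
    have : (0 : ℤ) ≤ ((∑ j, (if j ∈ S then 0 else w j - 2) : ℕ) : ℤ) := Int.natCast_nonneg _
    linarith
  have hfin := vs_fin (fun j => aff (P j)) w d
  have hpos := pos_of_mem hf hirr.ne_zero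
  obtain ⟨n, hn⟩ : ∃ n, Module.finrank K ↥(VS (fun j => aff (P j)) w d) = n + 1 :=
    ⟨Module.finrank K ↥(VS (fun j => aff (P j)) w d) - 1, by omega⟩
  let b : Module.Basis (Fin (n + 1)) K ↥(VS (fun j => aff (P j)) w d) :=
    Module.finBasisOfFinrankEq K _ hn
  obtain ⟨L, i1, i2, i3, i4, Q, t, D, hPQ, hD, hK, hN, h1, hG⟩ := gen_member hP b
  obtain ⟨G, hGd⟩ : ∃ G, G = ∑ j, C (t j) *
    map (algebraMap K L) (b j : MvPolynomial (Fin 3) K) := ⟨_, rfl⟩
  rw [← hGd] at hG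
  have hli : LinearIndependent K (fun j => (b j : MvPolynomial (Fin 3) K)) :=
    b.linearIndependent.map' (Submodule.subtype _) (Submodule.ker_subtype _)
  have hG0 : G ≠ 0 := by
    intro h0
    rw [hGd] at h0
    have h2 := congrFun (lin_ind_map hli h0) 0
    have h3 := hD 0 0
    rw [h2, Pi.zero_apply, map_zero, if_pos rfl] at h3
    exact zero_ne_one h3
  -- special points
  obtain ⟨Q0, hQ0, hQ1⟩ := pick hirr hfm.1 hd2 n (VS (fun j => aff (P j)) w d)
    (fun g hg => ((mem_VS _ _ _ _).1 hg).1) hf hn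
  obtain ⟨Q2, hQ2⟩ : ∃ Q2 : Fin (n + 4) → Fin 2 → K, ∀ (k : Fin (n + 4)) (h : k.1 < n),
      Q2 k = Q0 ⟨k.1, h⟩ :=
    ⟨fun k => if h : k.1 < n then Q0 ⟨k.1, h⟩ else 0, fun k h => dif_pos h⟩
  have hmem : ∀ g : MvPolynomial (Fin 3) K, g ∈ VS (fun j => aff (PPt P Q2 j))
      (wwt w (fun k : Fin (n + 4) => if k.1 < n then 1 else 0)) d ↔
      g ∈ VS (fun j => aff (P j)) w d ∧ ∀ k, eval (aff (Q0 k)) g = 0 := by
    intro g
    rw [mem_PPt]
    refine and_congr Iff.rfl ⟨fun h k => ?_, fun h k => ?_⟩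
    · have h2 := h (Fin.castAdd 4 k)
      rw [if_pos (show (Fin.castAdd 4 k).1 < n from k.2), hQ2 _ k.2] at h2
      exact TT.van_one.1 h2
    · split_ifs with hk
      · rw [hQ2 k hk]
        exact TT.van_one.2 (h _)
      · exact van_zero _ _
  have hfs := (hmem f).2 ⟨hf, hQ0⟩
  have h1s : Module.finrank K ↥(VS (fun j => aff (PPt P Q2 j))
      (wwt w (fun k : Fin (n + 4) => if k.1 < n then 1 else 0)) d) = 1 := by
    refine (finrank_eq_one_iff_of_nonzero' ⟨f, hfs⟩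
      (fun h => hirr.ne_zero (congrArg Subtype.val h))).2 fun g => ?_
    obtain ⟨g1, g2⟩ := (hmem g.1).1 g.2
    obtain ⟨c, hc⟩ := hQ1 g.1 g1 g2
    exact ⟨c, Subtype.ext hc⟩
  have hGi : Irreducible G := irr_of_special hPQ h1s hfs hirr hG hG0
  -- the bound for the rigid system
  obtain ⟨ww, hww⟩ : ∃ ww, ww = wwt w (fun k : Fin (n + 4) => if k.1 < n then 1 else 0) :=
    ⟨_, rfl⟩
  obtain ⟨T, hT⟩ : ∃ T : Finset (Fin (s + (n + 4))),
    T = S.map ⟨fun j => finSumFinEquiv (Sum.inl j), fun a b h => by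
      simpa using h⟩ := ⟨_, rfl⟩
  have hTl : ∀ i : Fin s, finSumFinEquiv (Sum.inl i) ∈ T ↔ i ∈ S := by
    intro i
    rw [hT, Finset.mem_map]
    constructor
    · rintro ⟨j, hj, hij⟩
      have h2 : (finSumFinEquiv (Sum.inl j) : Fin (s + (n + 4))) = finSumFinEquiv (Sum.inl i) := hij
      have h3 := Sum.inl.inj (finSumFinEquiv.injective h2)
      rwa [← h3]
    · intro hi
      exact ⟨i, hi, rfl⟩
  have hTr : ∀ k : Fin (n + 4), (finSumFinEquiv (Sum.inr k) : Fin (s + (n + 4))) ∉ T := by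
    intro k hk
    rw [hT, Finset.mem_map] at hk
    obtain ⟨j, -, hij⟩ := hk
    have h2 : (finSumFinEquiv (Sum.inl j) : Fin (s + (n + 4))) = finSumFinEquiv (Sum.inr k) := hij
    exact absurd (finSumFinEquiv.injective h2) (by simp)
  have hsum : ∑ j ∈ T, ww j < 3 * d := by
    rw [hT, Finset.sum_map]
    refine lt_of_eq_of_lt (Finset.sum_congr rfl fun j _ => ?_) hw
    rw [hww]
    exact wwt_inl _ _ _
  rw [← hww] at hG h1
  have hb := bound (r := s + n) T hsum hPQ hGi ((mem_VS _ _ _ _).1 hG).1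
    (exact_ord hPQ h1 hG hG0)
  have h1' : Module.finrank L ↥(VS (ι := Fin (s + n + 4)) (fun j => aff (PPt P Q j)) ww d) = 1 := h1
  have hcost : ∑ j, (if j ∈ T then 0 else ww j - 2) = ∑ j, (if j ∈ S then 0 else w j - 2) := by
    rw [← Equiv.sum_comp finSumFinEquiv, Fintype.sum_sum_type]
    have e1 : ∀ i : Fin s, (if finSumFinEquiv (Sum.inl i) ∈ T then 0 else
        ww (finSumFinEquiv (Sum.inl i)) - 2) = if i ∈ S then 0 else w i - 2 := by
      intro i
      rw [hww, wwt_inl]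
      by_cases hi : i ∈ S
      · rw [if_pos hi, if_pos ((hTl i).2 hi)]
      · rw [if_neg hi, if_neg fun h => hi ((hTl i).1 h)]
    have e2 : ∀ k : Fin (n + 4), (if finSumFinEquiv (Sum.inr k) ∈ T then 0 else
        ww (finSumFinEquiv (Sum.inr k)) - 2) = 0 := by
      intro k
      rw [if_neg (hTr k), hww, wwt_inr]
      split_ifs <;> rfl
    rw [Finset.sum_congr rfl fun i _ => e1 i, Finset.sum_congr rfl fun k _ => e2 k]
    simp
  have hb2 : (1 : ℤ) ≤ chi (s := s + (n + 4)) d ww +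
      ((∑ j : Fin (s + (n + 4)), (if j ∈ T then 0 else ww j - 2) : ℕ) : ℤ) := by
    have h5 : ((1 : ℕ) : ℤ) = (Module.finrank L
      ↥(VS (ι := Fin (s + n + 4)) (fun j => aff (PPt P Q j)) ww d) : ℤ) := by rw [h1']
    have h6 : (1 : ℤ) = ((1 : ℕ) : ℤ) := by norm_num
    rw [h6, h5]
    exact hb
  rw [hcost, chi_cast, hww, wwt_choose (n := n) w] at hb2
  rw [hn, chi_cast]
  push_cast at hb2 ⊢
  linarith

end Pool.Agent.TH167.T3
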