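import Pool.Agent.TH167.DD.PrimeA

set_option autoImplicit false

/-!
# A bound for the superabundance of systems with an irreducible member
-/

namespace Pool.Agent.TH167.T3

open MvPolynomial Pool.Agent.W609 Pool.Agent.W609.CR Pool.Agent.TH167.SH Pool.Agent.H248R5
  Pool.Agent.H248R6 Pool.Agent.TH167.TT Pool.Agent.TH167.DD

/-- The spread of the singular points: a lower bound for the dimension. -/
theorem tlem_gen {K : Type} [Field K] [CharZero K] {s : ℕ} {P : Fin s → Fin 2 → K}
    (hP : AlgebraicIndependent ℚ (fun ij : Fin s × Fin 2 => P ij.1 ij.2))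
    {w : Fin s → ℕ} {d : ℕ} (h1 : Module.finrank K ↥(VS (fun j => aff (P j)) w d) = 1)
    {f : MvPolynomial (Fin 3) K} (hf : f ∈ VS (fun j => aff (P j)) w d) (hf0 : f ≠ 0)
    (hsq : Squarefree f) (S : Finset (Fin s)) :
    1 + ∑ j, (if j ∈ S then 0 else min (w j) 2) ≤
      Module.finrank K ↥(VS (fun j => aff (P j)) (fun j => if j ∈ S then w j else w j - 1) d) := by
  classical
  obtain ⟨c0, μ, hc0, hμ, hcf⟩ := exists_norm hf hf0
  obtain ⟨g, hg⟩ : ∃ g, g = C c0 * f := ⟨_, rfl⟩
  rw [← hg] at hμ hcf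
  have hg0 : g ≠ 0 := by
    rw [hg]
    exact mul_ne_zero (fun h => hc0 (by rwa [C_eq_zero] at h)) hf0
  have hgh := ((mem_VS _ _ _ _).1 hcf).1
  have hgsq : Squarefree g := by
    rw [hg]
    have hu : IsUnit (C c0 : MvPolynomial (Fin 3) K) := (isUnit_iff_ne_zero.2 hc0).map C
    exact fun x hx => hsq x (hu.dvd_mul_left.1 hx)
  have hord : ∀ j, Ord (aff (P j)) (w j) g := exact_ord hP h1 hcf hg0
  obtain ⟨D, hD⟩ := exists_D hP
  let J : Finset (Fin s × Fin 2) := Finset.univ.filter fun x => x.1 ∉ S ∧ w x.1 ≠ 0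
  have hJ : ∀ x, x ∈ J ↔ x.1 ∉ S ∧ w x.1 ≠ 0 := fun x => by
    show x ∈ Finset.univ.filter (fun x : Fin s × Fin 2 => x.1 ∉ S ∧ w x.1 ≠ 0) ↔ _
    rw [Finset.mem_filter]
    simp
  let w1 : Fin s → ℕ := fun j => if j ∈ S then w j else w j - 1
  have hDx : ∀ x ∈ J, dG (D x) g ∈ VS (fun j => aff (P j)) w1 d := by
    intro x hx
    obtain ⟨hx1, hx2⟩ := (hJ x).1 hx
    obtain ⟨k1, -⟩ := move (w := w) (P := P) (d := d) (k := x.1) (m := w x.1 - 1)
      (by omega) (a := x.2) (D x) (fun i b => hD x i b) (mem_forms_VS.1 hcf)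
    rw [← mem_forms_VS] at k1
    refine vs_le (fun i => ?_) k1
    show (if i ∈ S then w i else w i - 1) ≤ _
    by_cases hi : i = x.1
    · subst hi
      rw [Function.update_self, if_neg hx1]
    · rw [Function.update_of_ne hi]
      split_ifs <;> omega
  have hgw1 : g ∈ VS (fun j => aff (P j)) w1 d := by
    refine vs_le (fun i => ?_) hcf
    show (if i ∈ S then w i else w i - 1) ≤ w i
    split_ifs <;> omega
  let Psi : (K × (J → K)) →ₗ[K] MvPolynomial (Fin 3) K :=
    { toFun := fun q => q.1 • g + ∑ x : J, q.2 x • dG (D x) g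
      map_add' := fun q q' => by
        simp only [Prod.fst_add, Prod.snd_add, Pi.add_apply, add_smul, Finset.sum_add_distrib]
        abel
      map_smul' := fun t q => by
        simp only [Prod.smul_fst, Prod.smul_snd, Pi.smul_apply, smul_eq_mul, mul_smul,
          RingHom.id_apply, smul_add, Finset.smul_sum] }
  have hPsi : ∀ q, Psi q = q.1 • g + ∑ x : J, q.2 x • dG (D x) g := fun q => rfl
  have hrange : LinearMap.range Psi ≤ VS (fun j => aff (P j)) w1 d := by
    rintro _ ⟨q, rfl⟩
    rw [hPsi]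
    refine Submodule.add_mem _ (Submodule.smul_mem _ _ hgw1) ?_
    exact Submodule.sum_mem _ fun x _ => Submodule.smul_mem _ _ (hDx x x.2)
  have hfin := vs_fin (fun j => aff (P j)) w1 d
  have d1 := Submodule.finrank_mono hrange
  have d2 := LinearMap.finrank_range_add_finrank_ker Psi
  have d3 : Module.finrank K (K × (J → K)) = 1 + J.card := by
    rw [Module.finrank_prod, Module.finrank_self, Module.finrank_fintype_fun_eq_card,
      Fintype.card_coe]
  -- the kernel
  have hker : ∀ q ∈ LinearMap.ker Psi, q.1 = 0 ∧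
      dG (∑ x ∈ Finset.univ, q.2 x • D x.1) g = 0 := by
    intro q hq
    rw [LinearMap.mem_ker, hPsi] at hq
    have e1 := congrArg (coeff μ) hq
    rw [coeff_add, coeff_smul, hμ, coeff_sum, Finset.sum_eq_zero (fun x _ => by
      rw [coeff_smul, coeff_dG, hμ, (D x).map_one_eq_zero, smul_zero]), coeff_zero, add_zero,
      smul_eq_mul, mul_one] at e1
    refine ⟨e1, ?_⟩
    rw [e1, zero_smul, zero_add] at hq
    ext α
    rw [coeff_dG, sum_der, ← hq, coeff_sum]
    exact Finset.sum_congr rfl fun x _ => by rw [coeff_smul, coeff_dG, smul_eq_mul]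
  have hDq : ∀ (a : J → K) (x : J), (∑ y ∈ Finset.univ, a y • D y.1) (P x.1.1 x.1.2) = a x := by
    intro a x
    rw [sum_der, Finset.sum_eq_single x]
    · rw [hD, if_pos ⟨rfl, rfl⟩, mul_one]
    · intro y _ hy
      rw [hD, if_neg, mul_zero]
      intro h
      exact hy (Subtype.ext (Prod.ext h.1.symm h.2.symm))
    · intro h
      exact absurd (Finset.mem_univ _) h
  have hgrad : ∀ j : Fin s, ∃ b : Fin 2, w j = 1 →
      eval (aff (P j)) (pderiv (Fin.castSucc b) g) ≠ 0 := by
    intro j
    by_cases hj : w j = 1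
    · have h2 := hord j
      rw [hj] at h2
      obtain ⟨b, hb⟩ := grad_ne hgh h2
      exact ⟨b, fun _ => hb⟩
    · exact ⟨0, fun h => absurd h hj⟩
  choose β hβ using hgrad
  let T1 : Finset (Fin s) := Finset.univ.filter fun j => j ∉ S ∧ w j = 1
  have hT1 : ∀ j, j ∈ T1 ↔ j ∉ S ∧ w j = 1 := fun j => by
    show j ∈ Finset.univ.filter (fun j => j ∉ S ∧ w j = 1) ↔ _
    rw [Finset.mem_filter]
    simp
  have hT1J : ∀ (j : T1) (b : Fin 2), ((j.1, b) : Fin s × Fin 2) ∈ J := by
    intro j b
    have := (hT1 j.1).1 j.2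
    rw [hJ]
    exact ⟨this.1, by rw [this.2]; exact one_ne_zero⟩
  let κ : (K × (J → K)) →ₗ[K] (T1 → K) :=
    { toFun := fun q j => q.2 ⟨(j.1, 1 - β j.1), hT1J j _⟩
      map_add' := fun q q' => rfl
      map_smul' := fun t q => rfl }
  have hinj : Function.Injective (κ.comp (LinearMap.ker Psi).subtype) := by
    rw [← LinearMap.ker_eq_bot, LinearMap.ker_eq_bot']
    rintro ⟨q, hq⟩ hq2
    obtain ⟨e1, e2⟩ := hker q hq
    have hq3 : ∀ j : T1, q.2 ⟨(j.1, 1 - β j.1), hT1J j _⟩ = 0 := fun j => congrFun hq2 j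
    apply Subtype.ext
    apply Prod.ext
    · exact e1
    · funext x
      show q.2 x = 0
      obtain ⟨hx1, hx2⟩ := (hJ x.1).1 x.2
      rcases Nat.lt_or_ge (w x.1.1) 2 with hlt | hge
      · -- a simple point
        have hw1 : w x.1.1 = 1 := by omega
        have hx4 : x.1.1 ∈ T1 := (hT1 _).2 ⟨hx1, hw1⟩
        have hxb : x.1.2 = β x.1.1 ∨ x.1.2 = 1 - β x.1.1 := by
          generalize x.1.2 = b
          generalize β x.1.1 = b'
          fin_cases b <;> fin_cases b' <;> simp
        have hz := hq3 ⟨x.1.1, hx4⟩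
        rcases hxb with hxb | hxb
        · have h2 := der_eval (∑ y ∈ Finset.univ, q.2 y • D y.1) (aff (P x.1.1)) g
          have h3 : eval (aff (P x.1.1)) g = 0 := by
            have := (hord x.1.1).1
            rw [hw1] at this
            exact (TT.van_one).1 this
          have haff : ∀ b : Fin 2, aff (P x.1.1) (Fin.castSucc b) = P x.1.1 b := by
            intro b
            fin_cases b <;> rfl
          rw [e2, h3, map_zero, map_zero, zero_add, Fin.sum_univ_castSucc] at h2
          have h4 : (∑ y ∈ Finset.univ, q.2 y • D y.1) (aff (P x.1.1) (Fin.last 2)) = 0 := by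
            have : aff (P x.1.1) (Fin.last 2) = 1 := rfl
            rw [this]
            exact Derivation.map_one_eq_zero _
          rw [h4, mul_zero, add_zero] at h2
          have h5 : ∀ b : Fin 2, (∑ y ∈ Finset.univ, q.2 y • D y.1)
              (aff (P x.1.1) (Fin.castSucc b)) = q.2 ⟨(x.1.1, b), hT1J ⟨x.1.1, hx4⟩ b⟩ := by
            intro b
            rw [haff]
            exact hDq q.2 ⟨(x.1.1, b), hT1J ⟨x.1.1, hx4⟩ b⟩
          simp only [h5] at h2
          rw [Finset.sum_eq_single (β x.1.1)] at h2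
          · have h6 := hβ x.1.1 hw1
            have h7 := (mul_eq_zero.1 h2.symm).resolve_left h6
            have h8 : x = ⟨(x.1.1, β x.1.1), hT1J ⟨x.1.1, hx4⟩ _⟩ :=
              Subtype.ext (Prod.ext rfl hxb)
            rw [h8]
            exact h7
          · intro b _ hb
            have h9 : b = 1 - β x.1.1 := by
              revert hb
              generalize β x.1.1 = b'
              fin_cases b <;> fin_cases b' <;> simp
            subst h9
            rw [hz, mul_zero]
          · intro h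
            exact absurd (Finset.mem_univ _) h
        · have h8 : x = ⟨(x.1.1, 1 - β x.1.1), hT1J ⟨x.1.1, hx4⟩ _⟩ :=
            Subtype.ext (Prod.ext rfl hxb)
          rw [h8]
          exact hz
      · -- a double point
        have h2 : Van (aff (P x.1.1)) 2 g := van_mono hge (hord x.1.1).1
        have h3 := sing_const (∑ y ∈ Finset.univ, q.2 y • D y.1) hgh hg0 hgsq e2
          (p := P x.1.1) ((TT.van_one).1 (van_mono (by omega) h2)) (fun l => pd_mem h2 l) x.1.2
        rw [hDq q.2 x] at h3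
        exact h3
  have d4 : Module.finrank K ↥(LinearMap.ker Psi) ≤ T1.card := by
    have := LinearMap.finrank_le_finrank_of_injective hinj
    rwa [Module.finrank_fintype_fun_eq_card, Fintype.card_coe] at this
  have d5 : J.card = 2 * (T1.card + (Finset.univ.filter fun j => j ∉ S ∧ 2 ≤ w j).card) := by
    have e1 : J = (T1 ∪ (Finset.univ.filter fun j => j ∉ S ∧ 2 ≤ w j)) ×ˢ
        (Finset.univ : Finset (Fin 2)) := by
      ext x
      rw [hJ, Finset.mem_product, Finset.mem_union, hT1, Finset.mem_filter]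
      constructor
      · rintro ⟨a1, a2⟩
        refine ⟨?_, Finset.mem_univ _⟩
        rcases Nat.lt_or_ge (w x.1) 2 with h | h
        · left
          exact ⟨a1, by omega⟩
        · right
          exact ⟨Finset.mem_univ _, a1, h⟩
      · rintro ⟨a1 | a1, -⟩
        · exact ⟨a1.1, by omega⟩
        · exact ⟨a1.2.1, by omega⟩
    rw [e1, Finset.card_product, Finset.card_union_of_disjoint, Finset.card_univ,
      Fintype.card_fin]
    · ring
    · rw [Finset.disjoint_left]
      intro j hj hj2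
      have a1 := ((hT1 j).1 hj).2
      have a2 := (Finset.mem_filter.1 hj2).2.2
      omega
  have e3 : ∑ j, (if j ∈ S then 0 else min (w j) 2) =
      T1.card + 2 * (Finset.univ.filter fun j => j ∉ S ∧ 2 ≤ w j).card := by
    rw [Finset.card_filter, Finset.card_filter, Finset.mul_sum, ← Finset.sum_add_distrib]
    refine Finset.sum_congr rfl fun j _ => ?_
    by_cases hj : j ∈ S
    · simp [hj]
    · rcases Nat.lt_or_ge (w j) 2 with h | h
      · rcases Nat.lt_or_ge (w j) 1 with h2 | h2
        · have : w j = 0 := by omega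
          simp [hj, this]
        · have : w j = 1 := by omega
          simp [hj, this]
      · have h3 : w j ≠ 1 := by omega
        simp [hj, h, h3]
  show _ ≤ Module.finrank K ↥(VS (fun j => aff (P j)) w1 d)
  omega

/-- The number of conditions. -/
def nm {s : ℕ} (S : Finset (Fin s)) (w : Fin s → ℕ) : ℕ :=
  ∑ j, (if j ∈ S then 0 else min (w j) 2)

theorem nm_ext {r : ℕ} (S : Finset (Fin (r + 4))) (w : Fin (r + 4) → ℕ) :
    nm (emb1 S) (ext1 w 1) = nm S w + 1 := by
  classical
  unfold nm
  have h1 := Fin.sum_univ_castSucc (n := r + 4) (fun j : Fin (r + 4 + 1) =>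
    if (j : Fin (r + 1 + 4)) ∈ emb1 S then 0 else min (ext1 w 1 j) 2)
  refine h1.trans ?_
  congr 1
  · refine Finset.sum_congr rfl fun j _ => ?_
    have e1 : ext1 w 1 j.castSucc = w j := by
      unfold ext1
      have hlt : (j.castSucc : Fin (r + 4 + 1)).1 < r + 4 := j.2
      exact dif_pos hlt
    have e2 : ((j.castSucc : Fin (r + 4 + 1)) : Fin (r + 1 + 4)) ∈ emb1 S ↔ j ∈ S := by
      rw [mem_emb1]
      constructor
      · rintro ⟨h, hS⟩
        exact hS
      · intro hS
        exact ⟨j.2, hS⟩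
    rw [e1]
    by_cases hjS : j ∈ S
    · rw [if_pos (e2.2 hjS), if_pos hjS]
    · rw [if_neg (fun h => hjS (e2.1 h)), if_neg hjS]
  · have e1 : ext1 w 1 (Fin.last (r + 4)) = 1 := by
      unfold ext1
      rw [dif_neg]
      exact Nat.lt_irrefl (r + 4)
    have e2 : ((Fin.last (r + 4) : Fin (r + 4 + 1)) : Fin (r + 1 + 4)) ∉ emb1 S := by
      rw [mem_emb1]
      rintro ⟨h, -⟩
      exact Nat.lt_irrefl (r + 4) h
    rw [if_neg e2, e1]
    rfl

/-- The lower bound. -/
theorem spread {d : ℕ} (hd : 2 ≤ d) {K : Type} [Field K] [CharZero K] [IsAlgClosed K]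
    {G : MvPolynomial (Fin 3) K} (hG : Irreducible G) :
    ∀ (n r : ℕ) (w : Fin (r + 4) → ℕ) (S : Finset (Fin (r + 4)))
      (P : Fin (r + 4) → Fin 2 → K) (_ : G ∈ VS (fun j => aff (P j)) w d)
      (_ : Module.finrank K ↥(VS (fun j => aff (P j)) w d) = n + 1)
      (K0 : Type) [Field K0] [CharZero K0] (P0 : Fin (r + 4) → Fin 2 → K0)
      (_ : AlgebraicIndependent ℚ (fun ij : Fin (r + 4) × Fin 2 => P0 ij.1 ij.2))
      (_ : Module.finrank K0 ↥(VS (fun j => aff (P0 j)) w d) = n + 1),
      n + 1 + nm S w ≤ Module.finrank K0 ↥(VS (fun j => aff (P0 j)) (al S w) d) := by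
  classical
  intro n
  induction n with
  | zero =>
    intro r w S P hGm h1 K0 _ _ P0 hP0 h2
    obtain ⟨f, hf, hf0⟩ := exists_mem (show 0 < Module.finrank K0
      ↥(VS (fun j => aff (P0 j)) w d) by omega)
    have hsq := sq_of_special hP0 h1 hGm hG.ne_zero hG.squarefree hf hf0
    have h3 := tlem_gen hP0 h2 hf hf0 hsq S
    unfold nm al
    omega
  | succ n ih =>
    intro r w S P hGm h1 K0 _ _ P0 hP0 h2
    have hfin := vs_fin (fun j => aff (P j)) w d
    -- a member which is not a multiple of `G`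
    obtain ⟨h, hh, hnd⟩ : ∃ h ∈ VS (fun j => aff (P j)) w d, ¬ G ∣ h := by
      by_contra hcon
      push Not at hcon
      have hM := mult_finite G 0
      have h3 : VS (fun j => aff (P j)) w d ≤ mult G 0 := by
        intro f hf
        exact mem_mult ((mem_VS _ _ _ _).1 hGm).1 hG.ne_zero ((mem_VS _ _ _ _).1 hf).1
          (hcon f hf) fun _ => by omega
      have h4 := Submodule.finrank_mono h3
      rw [mult_finrank hG.ne_zero, h1] at h4
      have h5 : (0 + 2).choose 2 = 1 := rfl
      omega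
    obtain ⟨q, hq1, hq2⟩ := exists_point_on hG ((mem_VS _ _ _ _).1 hGm).1 hd
      ((mem_VS _ _ _ _).1 hh).1 hnd
    have hPq : Module.finrank K ↥(VS (fun j => aff (app1 P q j)) (ext1 w 1) d) = n + 1 := by
      have h0 := ext1_zero (app1 P q) w d
      rw [app1_res] at h0
      have h3 := simple_le (app1 P q) (ext1_last w 0) d
      rw [ext1_update, h0, h1] at h3
      have h4 : VS (fun j => aff (app1 P q j)) (ext1 w 1) d < VS (fun j => aff (P j)) w d := by
        refine lt_of_le_of_ne (fun f hf => (mem_app1.1 hf).1) fun heq => ?_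
        rw [← heq] at hh
        exact hq2 (mem_app1.1 hh).2
      have h5 := Submodule.finrank_lt_finrank_of_lt h4
      omega
    obtain ⟨K1, i1, i2, P1, hP1⟩ := exists_generic (r + 1 + 4)
    have hP1' := ext1_generic hP1
    have e1 := gen_eq hP1' hP0 w d
    rw [h2] at e1
    have e2 := simple_drop hP1 (ext1_last w 0) (d := d) (by rw [ext1_zero, e1]; omega)
    have e3 := simple_le P1 (ext1_last w 0) d
    rw [ext1_update, ext1_zero, e1] at e2 e3
    have h6 := ih (r + 1) (ext1 w 1) (emb1 S) (app1 P q) (mem_app1.2 ⟨hGm, hq1⟩) hPq K1 P1 hP1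
      (by omega)
    rw [nm_ext, al_ext, ext1_zero, gen_eq hP1' hP0] at h6
    omega

/-- The bound for the superabundance. -/
theorem bound {K : Type} [Field K] [CharZero K] [IsAlgClosed K] {r e : ℕ}
    {w : Fin (r + 4) → ℕ} (S : Finset (Fin (r + 4)))
    (hsum : ∑ j ∈ S, w j < 3 * e) {P : Fin (r + 4) → Fin 2 → K}
    (hP : AlgebraicIndependent ℚ (fun ij : Fin (r + 4) × Fin 2 => P ij.1 ij.2))
    {G : MvPolynomial (Fin 3) K} (hG : Irreducible G) (hGe : G.IsHomogeneous e)
    (hord : ∀ j, Ord (aff (P j)) (w j) G) :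
    (Module.finrank K ↥(VS (fun j => aff (P j)) w e) : ℤ) ≤
      chi e w + ((∑ j, (if j ∈ S then 0 else w j - 2) : ℕ) : ℤ) := by
  classical
  rcases Nat.lt_or_ge e 2 with he | he
  · have he0 := deg_pos hG hGe
    have h1 := (prime9 (S := ∅) (by simp) (fun j _ => by
      have := van_le hG.ne_zero hGe (hord j).1
      omega) hP hG hGe hord).1
    rw [h1]
    have : (0 : ℤ) ≤ ((∑ j, (if j ∈ S then 0 else w j - 2) : ℕ) : ℤ) := Int.natCast_nonneg _
    linarith
  have hGm : G ∈ VS (fun j => aff (P j)) w e := (mem_VS _ _ _ _).2 ⟨hGe, fun j => (hord j).1⟩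
  have hpos := pos_of_mem hGm hG.ne_zero
  obtain ⟨n, hn⟩ : ∃ n, Module.finrank K ↥(VS (fun j => aff (P j)) w e) = n + 1 :=
    ⟨Module.finrank K ↥(VS (fun j => aff (P j)) w e) - 1, by omega⟩
  have h1 := spread he hG n r w S P hGm hn K P hP hn
  have h2 := adj hG hGe he (inj_of_alg hP) hord S hsum
  rw [chi_cast]
  have h4 : ∑ j, (w j + 1).choose 2 = nm S w + ∑ j, (if j ∈ S then 0 else w j - 2) +
      ∑ j, (if j ∈ S then (w j + 1).choose 2 else (w j).choose 2) := by
    unfold nm
    rw [← Finset.sum_add_distrib, ← Finset.sum_add_distrib]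
    refine Finset.sum_congr rfl fun j _ => ?_
    by_cases hjS : j ∈ S
    · simp [hjS]
    · rw [if_neg hjS, if_neg hjS, if_neg hjS]
      have h5 : (w j + 1).choose 2 = (w j).choose 1 + (w j).choose 2 := Nat.choose_succ_succ _ _
      rw [Nat.choose_one_right] at h5
      omega
  omega

end Pool.Agent.TH167.T3
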