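import Pool.Agent.TH167.T3.Std

set_option autoImplicit false

/-!
# Negative curves and triple points
-/

namespace Pool.Agent.TH167.T3

open MvPolynomial Pool.Agent.W609 Pool.Agent.W609.CR Pool.Agent.TH167.SH Pool.Agent.TH167.TT
  Pool.Agent.TH167.DD

theorem card_perm {s : ℕ} (w : Fin s → ℕ) (σ : Equiv.Perm (Fin s)) (m : ℕ) :
    (Finset.univ.filter fun j => m < w (σ j)).card = (Finset.univ.filter fun j => m < w j).card := by
  rw [Finset.card_filter, Finset.card_filter]
  exact Equiv.sum_comp σ (fun j => if m < w j then 1 else 0)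

theorem ip_perm {s : ℕ} (e : ℕ) (w : Fin s → ℕ) (σ : Equiv.Perm (Fin s)) :
    ip e (fun j => w (σ j)) e (fun j => w (σ j)) = ip e w e w := by
  unfold ip
  rw [Equiv.sum_comp σ (fun j => (w j : ℤ) * w j)]

theorem kk_perm {s : ℕ} (e : ℕ) (w : Fin s → ℕ) (σ : Equiv.Perm (Fin s)) :
    kk e (fun j => w (σ j)) = kk e w := by
  unfold kk
  rw [Equiv.sum_comp σ (fun j => (w j : ℤ))]

/-- The exclusion of the remaining standard classes. -/
theorem std_neg {K : Type} [Field K] [CharZero K] [IsAlgClosed K] {r e : ℕ}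
    {w : Fin (r + 4) → ℕ} (hred : Reduced e w) {P : Fin (r + 4) → Fin 2 → K}
    (hP : AlgebraicIndependent ℚ (fun ij : Fin (r + 4) × Fin 2 => P ij.1 ij.2))
    {G : MvPolynomial (Fin 3) K} (hG : Irreducible G) (hGe : G.IsHomogeneous e)
    (hord : ∀ j, Ord (aff (P j)) (w j) G)
    (h : (kk e w = -1 ∧ ip e w e w < 0) ∨ (kk e w = -3 ∧ ip e w e w = -1 ∧
      ((Finset.univ.filter fun j => 3 < w j).card ≤ 2 ∨ ∃ j, w j = 3))) : False := by
  classical
  have hGm : G ∈ VS (fun j => aff (P j)) w e := (mem_VS _ _ _ _).2 ⟨hGe, fun j => (hord j).1⟩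
  have hpos := pos_of_mem hGm hG.ne_zero
  have h2c := two_chi e w
  by_cases h9 : (Finset.univ.filter fun j => 2 < w j).card ≤ 9
  · have h1 := (prime9 h9 notMem_filter hP hG hGe hord).1
    omega
  push Not at h9
  have hr : 6 ≤ r := by
    have h1 := Finset.card_le_univ (Finset.univ.filter fun j => 2 < w j)
    rw [Fintype.card_fin] at h1
    omega
  have n0 : ((0 : Fin (r + 4)) : ℕ) = 0 := rfl
  have n1 : ((1 : Fin (r + 4)) : ℕ) = 1 := Nat.mod_eq_of_lt (show 1 < r + 4 by omega)
  have n2 : ((2 : Fin (r + 4)) : ℕ) = 2 := Nat.mod_eq_of_lt (show 2 < r + 4 by omega)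
  obtain ⟨σ, hσ⟩ := exists_sort w
  obtain ⟨v, hv⟩ : ∃ v : Fin (r + 4) → ℕ, v = fun j => w (σ j) := ⟨_, rfl⟩
  rw [← hv] at hσ
  have hval : ∀ (i : ℕ) (hi : i < r + 4), w (σ ⟨i, hi⟩) = ex v i := by
    intro i hi
    unfold ex
    rw [dif_pos hi, hv]
  have hanti := ex_anti hσ
  have hthree : ex v 0 + ex v 1 + ex v 2 ≤ e := by
    rw [← hval 0 (by omega), ← hval 1 (by omega), ← hval 2 (by omega)]
    refine hred _ _ _ ?_ ?_ ?_
    · exact fun h => absurd (congrArg Fin.val (σ.injective h)) (by simp)
    · exact fun h => absurd (congrArg Fin.val (σ.injective h)) (by simp)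
    · exact fun h => absurd (congrArg Fin.val (σ.injective h)) (by simp)
  have h3 : 3 ≤ ex v 9 := by
    by_contra hcon
    have h4 : (Finset.univ.filter fun j => 2 < v j).card ≤ 9 := by
      refine card_of_nine fun i hi => ?_
      have h5 := hanti hi
      have h6 : ex v i.1 = v i := dif_pos i.2
      omega
    rw [hv, card_perm w σ 2] at h4
    omega
  have h98 := hanti (show 8 ≤ 9 by omega)
  have h109 := hanti (show 9 ≤ 10 by omega)
  obtain ⟨x, D, U1, U2, a1, a2, a3, a4, a5, a6, a7, a8, a9⟩ := std_num hσ hr hthree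
  rw [hv, ip_perm, ← hv] at a4
  rw [hv, kk_perm, ← hv] at a5
  obtain ⟨A, hA⟩ : ∃ A : ℤ, A = ex v 8 := ⟨_, rfl⟩
  obtain ⟨B, hB⟩ : ∃ B : ℤ, B = ex v 9 := ⟨_, rfl⟩
  obtain ⟨C', hC⟩ : ∃ C' : ℤ, C' = ex v 10 := ⟨_, rfl⟩
  have z1 : (3 : ℤ) ≤ B := by rw [hB]; exact_mod_cast h3
  have z2 : B ≤ A := by rw [hB, hA]; exact_mod_cast h98
  have z3 : C' ≤ B := by rw [hB, hC]; exact_mod_cast h109
  have z4 : 0 ≤ C' := by rw [hC]; exact Int.natCast_nonneg _
  rw [← hA] at a2 a3
  rw [← hB, ← hC] at a4 a5
  rw [← hC] at a8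
  have hT : B ^ 2 + C' ^ 2 + U2 ≤ B * (B + C' + U1) := by nlinarith
  have hD : 2 * B * x ≤ D := by nlinarith
  rcases h with ⟨k1, k2⟩ | ⟨k1, k2, k3⟩
  · have hx : B + C' + U1 = x + 1 := by linarith
    rw [hx] at hT
    nlinarith
  · have hx : B + C' + U1 = x + 3 := by linarith
    have hx2 : x ≤ 2 := by
      by_contra hcon
      push Not at hcon
      rw [hx] at hT
      nlinarith
    have hx1 : 1 ≤ x := by
      by_contra hcon
      have hx0 : x = 0 := by omega
      rw [hx0] at a3
      nlinarith
    rcases Nat.lt_or_ge 3 (ex v 9) with hB4 | hB4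
    · -- ten multiplicities larger than three, and no triple point
      have hC1 : ex v 10 ≤ 1 := by
        have : (4 : ℤ) ≤ B := by rw [hB]; exact_mod_cast hB4
        have h5 : C' ≤ 1 := by linarith
        rw [hC] at h5
        exact_mod_cast h5
      rcases k3 with k3 | ⟨j, hj⟩
      · rw [← card_perm w σ 3] at k3
        have h5 : ({(0 : Fin (r + 4)), 1, 2} : Finset (Fin (r + 4))) ⊆
            Finset.univ.filter fun j => 3 < w (σ j) := by
          intro i hi
          rw [Finset.mem_filter]
          refine ⟨Finset.mem_univ _, ?_⟩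
          have h6 : i.1 ≤ 9 := by
            simp only [Finset.mem_insert, Finset.mem_singleton] at hi
            rcases hi with rfl | rfl | rfl
            · rw [n0]; omega
            · rw [n1]; omega
            · rw [n2]; omega
          have h7 := hanti h6
          have h8 := hval i.1 i.2
          have h10 : (⟨i.1, i.2⟩ : Fin (r + 4)) = i := rfl
          rw [h10] at h8
          rw [h8]
          omega
        have h6 := Finset.card_le_card h5
        have h7 : ({(0 : Fin (r + 4)), 1, 2} : Finset (Fin (r + 4))).card = 3 := by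
          rw [Finset.card_eq_three]
          refine ⟨0, 1, 2, ?_, ?_, ?_, rfl⟩
          · intro h
            have := congrArg Fin.val h
            rw [n0, n1] at this
            omega
          · intro h
            have := congrArg Fin.val h
            rw [n0, n2] at this
            omega
          · intro h
            have := congrArg Fin.val h
            rw [n1, n2] at this
            omega
        omega
      · have h5 := hval (σ.symm j).1 (σ.symm j).2
        have h10 : (⟨(σ.symm j).1, (σ.symm j).2⟩ : Fin (r + 4)) = σ.symm j := rfl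
        rw [h10, σ.apply_symm_apply, hj] at h5
        rcases Nat.lt_or_ge (σ.symm j).1 10 with h6 | h6
        · have h7 := hanti (show (σ.symm j).1 ≤ 9 by omega)
          omega
        · have h7 := hanti h6
          omega
    · -- a triple point and a point of multiplicity one or two
      have hB3 : ex v 9 = 3 := by omega
      have hC1 : 1 ≤ ex v 10 := by
        by_contra hcon
        have h5 : ex v 10 = 0 := by omega
        have h6 := a9 h5
        rw [h5] at hC
        rw [hB3] at hB
        push_cast at hB hC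
        linarith
      have hC2 : ex v 10 ≤ 2 := by
        rw [hB3] at hB
        push_cast at hB
        have h5 : C' ≤ 2 := by linarith
        rw [hC] at h5
        exact_mod_cast h5
      have h10 : 10 < r + 4 := by
        by_contra hcon
        have : ex v 10 = 0 := dif_neg hcon
        omega
      have w9 := hval 9 (by omega)
      have w10 := hval 10 h10
      have hne : σ ⟨9, by omega⟩ ≠ σ ⟨10, h10⟩ :=
        fun h => absurd (congrArg Fin.val (σ.injective h)) (by simp)
      obtain ⟨T, hT⟩ : ∃ T : Finset (Fin (r + 4)), T = {σ ⟨9, by omega⟩, σ ⟨10, h10⟩} := ⟨_, rfl⟩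
      have e1 : ∑ j ∈ T, w j = 3 + ex v 10 := by
        rw [hT, Finset.sum_pair hne, w9, w10, hB3]
      have e2 := Finset.sum_sdiff (Finset.subset_univ T) (f := w)
      rw [kk_cast] at k1
      have e3 : ∑ j ∈ Finset.univ \ T, w j < 3 * e := by omega
      have e4 := bound (Finset.univ \ T) e3 hP hG hGe hord
      have e5 : ∑ j, (if j ∈ Finset.univ \ T then 0 else w j - 2) = 1 := by
        have e6 : ∑ j, (if j ∈ Finset.univ \ T then 0 else w j - 2) = ∑ j ∈ T, (w j - 2) := by
          rw [← Finset.sum_filter_add_sum_filter_not Finset.univ (fun j => j ∈ T)]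
          rw [Finset.sum_eq_zero (s := Finset.univ.filter fun j => ¬ j ∈ T) (fun j hj => by
            rw [Finset.mem_filter] at hj
            rw [if_pos (Finset.mem_sdiff.2 hj)]), add_zero]
          refine Finset.sum_congr (by ext j; simp) fun j hj => ?_
          rw [if_neg (fun h => (Finset.mem_sdiff.1 h).2 hj)]
        rw [e6, hT, Finset.sum_pair hne, w9, w10, hB3]
        omega
      rw [e5] at e4
      rw [kk_cast] at h2c
      push_cast at e4 h2c k1
      omega

/-- Negative curves such that the sum of the multiplicities larger than three is small. -/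
theorem neg3 {K : Type} [Field K] [CharZero K] [IsAlgClosed K] {r e : ℕ}
    {w : Fin (r + 4) → ℕ} (hsum : ∑ j ∈ Finset.univ.filter (fun j => 3 < w j), w j < 3 * e)
    {P : Fin (r + 4) → Fin 2 → K}
    (hP : AlgebraicIndependent ℚ (fun ij : Fin (r + 4) × Fin 2 => P ij.1 ij.2))
    {G : MvPolynomial (Fin 3) K} (hG : Irreducible G) (hGe : G.IsHomogeneous e)
    (hord : ∀ j, Ord (aff (P j)) (w j) G) (hneg : ip e w e w < 0) :
    ip e w e w = -1 ∧ kk e w = 1 := by
  classical
  have hGm : G ∈ VS (fun j => aff (P j)) w e := (mem_VS _ _ _ _).2 ⟨hGe, fun j => (hord j).1⟩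
  have hpos := pos_of_mem hGm hG.ne_zero
  have h2c := two_chi e w
  by_cases hsmall : ∑ j ∈ Finset.univ.filter (fun j => 2 < w j), w j < 3 * e
  · exact (primeA notMem_filter hsmall hP hG hGe hord).2 hneg
  push Not at hsmall
  -- the triple points
  obtain ⟨T, hT⟩ : ∃ T : Finset (Fin (r + 4)), T = Finset.univ.filter fun j => w j = 3 := ⟨_, rfl⟩
  obtain ⟨A, hA⟩ : ∃ A : Finset (Fin (r + 4)), A = Finset.univ.filter fun j => 3 < w j := ⟨_, rfl⟩
  obtain ⟨R2, hR2⟩ : ∃ R : Finset (Fin (r + 4)), R = Finset.univ.filter fun j => w j = 2 :=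
    ⟨_, rfl⟩
  obtain ⟨R1, hR1⟩ : ∃ R : Finset (Fin (r + 4)), R = Finset.univ.filter fun j => w j = 1 :=
    ⟨_, rfl⟩
  rw [← hA] at hsum
  have hall : ∑ j, w j = ∑ j ∈ A, w j + 3 * T.card + 2 * R2.card + R1.card := by
    rw [hA, hT, hR2, hR1, Finset.sum_filter, Finset.card_filter, Finset.card_filter,
      Finset.card_filter, Finset.mul_sum, Finset.mul_sum, ← Finset.sum_add_distrib,
      ← Finset.sum_add_distrib, ← Finset.sum_add_distrib]
    refine Finset.sum_congr rfl fun j _ => ?_
    split_ifs <;> omega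
  have hAT : ∑ j ∈ Finset.univ.filter (fun j => 2 < w j), w j = ∑ j ∈ A, w j + 3 * T.card := by
    rw [hA, hT, Finset.sum_filter, Finset.sum_filter, Finset.card_filter, Finset.mul_sum,
      ← Finset.sum_add_distrib]
    refine Finset.sum_congr rfl fun j _ => ?_
    split_ifs <;> omega
  obtain ⟨k, hk⟩ : ∃ k, k = (3 * e - 1 - ∑ j ∈ A, w j) / 3 := ⟨_, rfl⟩
  have hkT : k ≤ T.card := by omega
  obtain ⟨T', hT'1, hT'2⟩ := Finset.exists_subset_card_eq hkT
  have hdisj : Disjoint A T' := by
    rw [Finset.disjoint_left]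
    intro j hj hj2
    have h1 := hT'1 hj2
    rw [hT, Finset.mem_filter] at h1
    rw [hA, Finset.mem_filter] at hj
    omega
  have hS : ∑ j ∈ A ∪ T', w j = ∑ j ∈ A, w j + 3 * k := by
    rw [Finset.sum_union hdisj]
    congr 1
    have h0 : ∀ j ∈ T', w j = 3 := by
      intro j hj
      have h1 := hT'1 hj
      rw [hT, Finset.mem_filter] at h1
      exact h1.2
    rw [Finset.sum_congr rfl h0, Finset.sum_const, hT'2, smul_eq_mul]
    ring
  have hb := bound (A ∪ T') (by omega) hP hG hGe hord
  have hcost : ∑ j, (if j ∈ A ∪ T' then 0 else w j - 2) = T.card - k := by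
    have h1 : ∑ j, (if j ∈ A ∪ T' then 0 else w j - 2) = ∑ j ∈ T \ T', 1 := by
      rw [← Finset.sum_filter_add_sum_filter_not Finset.univ (fun j => j ∈ T \ T'),
        Finset.sum_eq_zero (s := Finset.univ.filter fun j => ¬ j ∈ T \ T') (fun j hj => ?_),
        add_zero]
      · refine Finset.sum_congr (by ext j; simp) fun j hj => ?_
        obtain ⟨h2, h3⟩ := Finset.mem_sdiff.1 hj
        rw [hT, Finset.mem_filter] at h2
        rw [if_neg, h2.2]
        rw [Finset.mem_union]
        rintro (h4 | h4)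
        · rw [hA, Finset.mem_filter] at h4
          omega
        · exact h3 h4
      · rw [Finset.mem_filter, Finset.mem_sdiff] at hj
        split_ifs with h4
        · rfl
        · rw [Finset.mem_union] at h4
          push Not at h4
          by_contra hcon
          apply hj.2
          refine ⟨?_, h4.2⟩
          have h5 := h4.1
          rw [hA, Finset.mem_filter] at h5
          push Not at h5
          have h6 := h5 (Finset.mem_univ _)
          rw [hT, Finset.mem_filter]
          exact ⟨Finset.mem_univ _, by omega⟩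
    rw [h1, Finset.sum_const, smul_eq_mul, mul_one, Finset.card_sdiff_of_subset hT'1, hT'2]
  rw [hcost] at hb
  have hkk := kk_cast e w
  rw [hall] at hkk
  rw [hAT] at hsmall
  obtain ⟨sA, hsA⟩ : ∃ sA : ℕ, sA = ∑ j ∈ A, w j := ⟨_, rfl⟩
  rw [← hsA] at hkk hsum hk hsmall
  have hcases : (kk e w = -1 ∧ ip e w e w = -1) ∨ (kk e w = 0) ∨
      (kk e w = -3 ∧ ip e w e w = -1 ∧ 0 < T.card) := by
    omega
  rcases irr_std e P hP w G hG hGe hord with h | ⟨P1, e1, w1, G1, a1, a2, a3, a4, a5, a6, a7, a8,
    a9⟩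
  · exact h
  · exfalso
    rcases hcases with ⟨h1, h2⟩ | h1 | ⟨h1, h2, h3⟩
    · exact std_neg a5 a1 a2 a3 a4 (Or.inl ⟨by omega, by omega⟩)
    · rw [h1, kk_cast] at a8
      have h6 := red_ip a5 (fun j => van_le a2.ne_zero a3 (a4 j).1) (by omega)
      omega
    · refine std_neg a5 a1 a2 a3 a4 (Or.inr ⟨by omega, by omega, ?_⟩)
      rcases a9 with a9 | a9
      · exact Or.inl a9
      · right
        obtain ⟨j, hj⟩ := Finset.card_pos.1 h3
        rw [hT, Finset.mem_filter] at hj
        exact ⟨j, a9 j hj.2⟩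

end Pool.Agent.TH167.T3
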