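import Pool.Agent.TH167.T3.Bound

set_option autoImplicit false

/-!
# Standard classes: the first nine multiplicities
-/

namespace Pool.Agent.TH167.T3

open MvPolynomial Pool.Agent.W609 Pool.Agent.W609.CR Pool.Agent.TH167.SH Pool.Agent.TH167.TT
  Pool.Agent.TH167.DD

theorem key8 {f p0 p1 p2 p3 p4 p5 p6 p7 : ℤ} (h7 : 0 ≤ p7) (h67 : p7 ≤ p6) (h56 : p6 ≤ p5)
    (h45 : p5 ≤ p4) (h34 : p4 ≤ p3) (h23 : p3 ≤ p2) (h12 : p2 ≤ p1) (h01 : p1 ≤ p0)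
    (hf : p0 + p1 + p2 ≤ f) :
    0 ≤ f ^ 2 - (p0 ^ 2 + p1 ^ 2 + p2 ^ 2 + p3 ^ 2 + p4 ^ 2 + p5 ^ 2 + p6 ^ 2 + p7 ^ 2) ∧
      f ^ 2 - (p0 ^ 2 + p1 ^ 2 + p2 ^ 2 + p3 ^ 2 + p4 ^ 2 + p5 ^ 2 + p6 ^ 2 + p7 ^ 2) ≤
        (3 * f - (p0 + p1 + p2 + p3 + p4 + p5 + p6 + p7)) ^ 2 := by
  constructor
  · have h3 : p3 ^ 2 ≤ p2 ^ 2 := by nlinarith
    have h4 : p4 ^ 2 ≤ p2 ^ 2 := by nlinarith
    have h5 : p5 ^ 2 ≤ p2 ^ 2 := by nlinarith
    have h6 : p6 ^ 2 ≤ p2 ^ 2 := by nlinarith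
    have h7' : p7 ^ 2 ≤ p2 ^ 2 := by nlinarith
    have h8 : (p0 + p1 + p2) ^ 2 ≤ f ^ 2 := by nlinarith
    have h9 : p2 ^ 2 ≤ p0 * p1 := by nlinarith
    have h10 : p2 ^ 2 ≤ p0 * p2 := by nlinarith
    have h11 : p2 ^ 2 ≤ p1 * p2 := by nlinarith
    nlinarith
  · have h1 : (p0 + p1 + p2 + p3 + p4 + p5 + p6 + p7) ^ 2 ≤
        8 * (p0 ^ 2 + p1 ^ 2 + p2 ^ 2 + p3 ^ 2 + p4 ^ 2 + p5 ^ 2 + p6 ^ 2 + p7 ^ 2) := by
      have h2 := sq_sum_le_card_mul_sum_sq (s := (Finset.univ : Finset (Fin 8)))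
        (f := (![p0, p1, p2, p3, p4, p5, p6, p7] : Fin 8 → ℤ))
      simp only [Fin.sum_univ_eight, Finset.card_univ, Fintype.card_fin] at h2
      simpa using h2
    nlinarith [sq_nonneg (f - 3 * (3 * f - (p0 + p1 + p2 + p3 + p4 + p5 + p6 + p7)))]

theorem key9 {e : ℤ} {q : ℕ → ℤ} (hq : ∀ i, q (i + 1) ≤ q i)
    (he : q 0 + q 1 + q 2 ≤ e) :
    0 ≤ 3 * e - ∑ i ∈ Finset.range 9, q i ∧
      2 * q 8 * (3 * e - ∑ i ∈ Finset.range 9, q i) ≤ e ^ 2 - ∑ i ∈ Finset.range 9, q i ^ 2 ∧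
      e ^ 2 - ∑ i ∈ Finset.range 9, q i ^ 2 ≤ 2 * q 8 * (3 * e - ∑ i ∈ Finset.range 9, q i) +
        (3 * e - ∑ i ∈ Finset.range 9, q i) ^ 2 := by
  have a0 := hq 0
  have a1 := hq 1
  have a2 := hq 2
  have a3 := hq 3
  have a4 := hq 4
  have a5 := hq 5
  have a6 := hq 6
  have a7 := hq 7
  obtain ⟨b1, b2⟩ := key8 (f := e - 3 * q 8) (p0 := q 0 - q 8) (p1 := q 1 - q 8)
    (p2 := q 2 - q 8) (p3 := q 3 - q 8) (p4 := q 4 - q 8) (p5 := q 5 - q 8) (p6 := q 6 - q 8)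
    (p7 := q 7 - q 8) (by linarith) (by linarith) (by linarith) (by linarith) (by linarith)
    (by linarith) (by linarith) (by linarith) (by linarith)
  simp only [Finset.sum_range_succ, Finset.sum_range_zero, zero_add]
  refine ⟨by linarith, ?_, ?_⟩
  · nlinarith
  · nlinarith

/-- The extension of a vector by zero. -/
def ex {n : ℕ} (v : Fin n → ℕ) (i : ℕ) : ℕ := if h : i < n then v ⟨i, h⟩ else 0

theorem ex_sum {n : ℕ} (v : Fin n → ℕ) (f : ℕ → ℤ) (hf : f 0 = 0) :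
    ∑ j, f (v j) = ∑ i ∈ Finset.range (n + 2), f (ex v i) := by
  rw [Finset.sum_range_succ, Finset.sum_range_succ, ← Fin.sum_univ_eq_sum_range]
  have h1 : ex v n = 0 := dif_neg (lt_irrefl n)
  have h2 : ex v (n + 1) = 0 := dif_neg (by omega)
  rw [h1, h2, hf, add_zero, add_zero]
  refine Finset.sum_congr rfl fun j _ => ?_
  have : ex v j.1 = v j := dif_pos j.2
  rw [this]

theorem ex_anti {n : ℕ} {v : Fin n → ℕ} (hv : Antitone v) : Antitone (ex v) := by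
  intro i j hij
  unfold ex
  by_cases hj : j < n
  · rw [dif_pos hj, dif_pos (by omega)]
    exact hv (by rw [Fin.le_def]; exact hij)
  · rw [dif_neg hj]
    exact Nat.zero_le _

/-- Numerical data of a standard class with at least ten points. -/
theorem std_num {r e : ℕ} {v : Fin (r + 4) → ℕ} (hv : Antitone v) (hr : 6 ≤ r)
    (he : ex v 0 + ex v 1 + ex v 2 ≤ e) :
    ∃ x D U1 U2 : ℤ, 0 ≤ x ∧ 2 * (ex v 8 : ℤ) * x ≤ D ∧ D ≤ 2 * (ex v 8 : ℤ) * x + x ^ 2 ∧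
      ip e v e v = D - ((ex v 9 : ℤ) ^ 2 + (ex v 10 : ℤ) ^ 2 + U2) ∧
      kk e v = x - ((ex v 9 : ℤ) + ex v 10 + U1) ∧ 0 ≤ U1 ∧ 0 ≤ U2 ∧ U2 ≤ ex v 10 * U1 ∧
      (ex v 10 = 0 → U1 = 0) := by
  have hanti := ex_anti hv
  obtain ⟨c1, c2, c3⟩ := key9 (e := e) (q := fun i => (ex v i : ℤ))
    (fun i => by exact_mod_cast hanti (Nat.le_succ i)) (by exact_mod_cast he)
  have hsplit : ∀ g : ℕ → ℤ, ∑ i ∈ Finset.range (r + 4 + 2), g i =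
      ∑ i ∈ Finset.range 9, g i + (g 9 + (g 10 + ∑ i ∈ Finset.Ico 11 (r + 4 + 2), g i)) := by
    intro g
    rw [← Finset.sum_range_add_sum_Ico g (show 9 ≤ r + 4 + 2 by omega),
      Finset.sum_eq_sum_Ico_succ_bot (show 9 < r + 4 + 2 by omega),
      Finset.sum_eq_sum_Ico_succ_bot (show 9 + 1 < r + 4 + 2 by omega)]
  have s1 := ex_sum v (fun m => (m : ℤ)) rfl
  have s2 := ex_sum v (fun m => (m : ℤ) ^ 2) (by norm_num)
  rw [hsplit] at s1 s2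
  refine ⟨_, _, ∑ i ∈ Finset.Ico 11 (r + 4 + 2), (ex v i : ℤ),
    ∑ i ∈ Finset.Ico 11 (r + 4 + 2), (ex v i : ℤ) ^ 2, c1, c2, c3, ?_, ?_,
    Finset.sum_nonneg fun i _ => Int.natCast_nonneg _, Finset.sum_nonneg fun i _ => sq_nonneg _,
    ?_, ?_⟩
  · unfold ip
    have : ∑ j, (v j : ℤ) * v j = ∑ j, (v j : ℤ) ^ 2 :=
      Finset.sum_congr rfl fun j _ => (sq _).symm
    rw [this, s2]
    ring
  · unfold kk
    rw [s1]
    ring
  · rw [Finset.mul_sum]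
    refine Finset.sum_le_sum fun i hi => ?_
    rw [Finset.mem_Ico] at hi
    have h1 : (ex v i : ℤ) ≤ ex v 10 := by exact_mod_cast hanti (show 10 ≤ i by omega)
    have h2 : (0 : ℤ) ≤ ex v i := Int.natCast_nonneg _
    nlinarith
  · intro h0
    refine Finset.sum_eq_zero fun i hi => ?_
    rw [Finset.mem_Ico] at hi
    have h1 := hanti (show 10 ≤ i by omega)
    have : ex v i = 0 := by omega
    rw [this]
    rfl

end Pool.Agent.TH167.T3
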