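import Pool.Agent.TH167.T3.Num

set_option autoImplicit false

/-!
# Reduction of irreducible curves to standard classes, with control of the triple points
-/

namespace Pool.Agent.TH167.T3

open MvPolynomial Pool.Agent.W609 Pool.Agent.W609.CR Pool.Agent.TH167.SH Pool.Agent.TH167.TT
  Pool.Agent.TH167.DD

/-- A quadratic transformation which lowers the degree, and the labels of multiplicity three. -/
theorem step3 {r d : ℕ} {w : Fin (r + 4) → ℕ} (hnr : ¬ Reduced d w)
    (hp : ∀ i j, i ≠ j → w i + w j ≤ d) :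
    ∃ i : Fin 3 → Fin (r + 4), Function.Injective i ∧ PS i d w ∧
      cd i d w < d ∧ (∀ j, wcr d i w j ≤ w j) ∧
      ((Finset.univ.filter fun j => 3 < w j).card ≤ 2 ∨ ∀ j, w j = 3 → wcr d i w j = 3) := by
  classical
  have n0 : ((0 : Fin (r + 4)) : ℕ) = 0 := rfl
  have n1 : ((1 : Fin (r + 4)) : ℕ) = 1 := Nat.mod_eq_of_lt (show 1 < r + 4 by omega)
  have n2 : ((2 : Fin (r + 4)) : ℕ) = 2 := Nat.mod_eq_of_lt (show 2 < r + 4 by omega)
  obtain ⟨σ, hσ⟩ := exists_sort w
  have ne01 : σ 0 ≠ σ 1 := fun h => by
    have := congrArg Fin.val (σ.injective h)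
    rw [n0, n1] at this
    omega
  have h21 : w (σ 1) ≤ w (σ 0) := hσ (by rw [Fin.le_def, n1, n0]; omega)
  have h32 : w (σ 2) ≤ w (σ 1) := hσ (by rw [Fin.le_def, n1, n2]; omega)
  have hpr := hp _ _ ne01
  have hlt : d < w (σ 0) + w (σ 1) + w (σ 2) := by
    by_contra hge
    push Not at hge
    apply hnr
    intro i j k hij hik hjk
    have hw' : ∀ l, w l = (fun j => w (σ j)) (σ.symm l) := by
      intro l
      show w l = w (σ (σ.symm l))
      rw [σ.apply_symm_apply]
    rw [hw' i, hw' j, hw' k]
    refine le_trans ?_ hge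
    have hij' : σ.symm i ≠ σ.symm j := fun h => hij (σ.symm.injective h)
    have hik' : σ.symm i ≠ σ.symm k := fun h => hik (σ.symm.injective h)
    have hjk' : σ.symm j ≠ σ.symm k := fun h => hjk (σ.symm.injective h)
    exact three_sorted hσ hij' hik' hjk'
  obtain ⟨i, hi⟩ : ∃ i : Fin 3 → Fin (r + 4), i = fun k => σ ⟨k.1, by omega⟩ := ⟨_, rfl⟩
  have hinj : Function.Injective i := by
    intro a b hab
    rw [hi] at hab
    have h1 := σ.injective hab
    exact Fin.ext (Fin.mk.inj h1)
  have i0 : i 0 = σ 0 := by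
    rw [hi]
    rfl
  have i1 : i 1 = σ 1 := by
    rw [hi]
    show σ _ = σ 1
    congr 1
  have i2 : i 2 = σ 2 := by
    rw [hi]
    show σ _ = σ 2
    congr 1
  have p : PS i d w := by
    constructor
    · rw [i0, i1]; omega
    · rw [i0, i2]; omega
    · rw [i1, i2]; omega
  have hcdv : cd i d w = 2 * d - (w (σ 0) + w (σ 1) + w (σ 2)) := by
    unfold cd
    rw [i0, i1, i2]
  have hwle : ∀ j, wcr d i w j ≤ w j := by
    intro j
    unfold wcr
    rw [i0, i1, i2]
    split_ifs with c0 c1 c2
    · rw [c0]; omega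
    · rw [c1]; omega
    · rw [c2]; omega
    · exact le_rfl
  refine ⟨i, hinj, p, by omega, hwle, ?_⟩
  rcases Nat.lt_or_ge 3 (w (σ 2)) with hm1 | hm1
  · right
    intro j hj
    have hj0 : j ≠ i 0 := fun h => by rw [h, i0] at hj; omega
    have hj1 : j ≠ i 1 := fun h => by rw [h, i1] at hj; omega
    have hj2 : j ≠ i 2 := fun h => by rw [h, i2] at hj; omega
    unfold wcr
    rw [if_neg hj0, if_neg hj1, if_neg hj2]
    exact hj
  · left
    have h1 : (Finset.univ.filter fun i => 3 < w i) ⊆ {σ 0, σ 1} := by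
      intro j hj
      rw [Finset.mem_filter] at hj
      rw [Finset.mem_insert, Finset.mem_singleton]
      by_contra hcon
      push Not at hcon
      have hj0 : σ.symm j ≠ 0 := fun h => hcon.1 (by rw [← h, σ.apply_symm_apply])
      have hj1 : σ.symm j ≠ 1 := fun h => hcon.2 (by rw [← h, σ.apply_symm_apply])
      have h2 : (2 : Fin (r + 4)) ≤ σ.symm j := by
        rw [Fin.le_def, n2]
        have e0 : ((σ.symm j : Fin (r + 4)) : ℕ) ≠ 0 := fun h => hj0 (Fin.ext h)
        have e1 : ((σ.symm j : Fin (r + 4)) : ℕ) ≠ 1 := fun h =>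
          hj1 (Fin.ext (by rw [n1]; exact h))
        omega
      have h3 : w (σ (σ.symm j)) ≤ w (σ 2) := hσ h2
      rw [σ.apply_symm_apply] at h3
      omega
    exact (Finset.card_le_card h1).trans ((Finset.card_insert_le _ _).trans (by simp))

theorem card_mono3 {s : ℕ} {w w' : Fin s → ℕ} (h : ∀ j, w' j ≤ w j) :
    (Finset.univ.filter fun j => 3 < w' j).card ≤ (Finset.univ.filter fun j => 3 < w j).card := by
  refine Finset.card_le_card fun j hj => ?_
  rw [Finset.mem_filter] at hj ⊢
  exact ⟨hj.1, lt_of_lt_of_le hj.2 (h j)⟩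

/-- Reduction to a standard class. -/
theorem irr_std {K : Type} [Field K] [CharZero K] {r : ℕ} :
    ∀ (e : ℕ) (P : Fin (r + 4) → Fin 2 → K)
      (_ : AlgebraicIndependent ℚ (fun ij : Fin (r + 4) × Fin 2 => P ij.1 ij.2))
      (w : Fin (r + 4) → ℕ)
      (G : MvPolynomial (Fin 3) K) (_ : Irreducible G) (_ : G.IsHomogeneous e)
      (_ : ∀ j, Ord (aff (P j)) (w j) G),
      (ip e w e w = -1 ∧ kk e w = 1) ∨
      ∃ (P1 : Fin (r + 4) → Fin 2 → K) (e1 : ℕ) (w1 : Fin (r + 4) → ℕ)
        (G1 : MvPolynomial (Fin 3) K),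
        AlgebraicIndependent ℚ (fun ij : Fin (r + 4) × Fin 2 => P1 ij.1 ij.2) ∧
        Irreducible G1 ∧ G1.IsHomogeneous e1 ∧ (∀ j, Ord (aff (P1 j)) (w1 j) G1) ∧
        Reduced e1 w1 ∧ (∀ j, w1 j ≤ w j) ∧ ip e1 w1 e1 w1 = ip e w e w ∧ kk e1 w1 = kk e w ∧
        ((Finset.univ.filter fun j => 3 < w1 j).card ≤ 2 ∨ ∀ j, w j = 3 → w1 j = 3) := by
  classical
  intro e
  induction e using Nat.strong_induction_on with
  | _ e ih =>
    intro P hP w G hG hGe hord
    have he0 := deg_pos hG hGe
    have hwd : ∀ j, w j ≤ e := fun j => van_le hG.ne_zero hGe (hord j).1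
    by_cases hpair : ∀ i j, i ≠ j → w i + w j ≤ e
    · by_cases hred : Reduced e w
      · right
        exact ⟨P, e, w, G, hP, hG, hGe, hord, hred, fun _ => le_rfl, rfl, rfl,
          Or.inr fun _ h => h⟩
      · -- a quadratic transformation
        obtain ⟨i, hinj, p, hlt, hwle, h3⟩ := step3 hred hpair
        obtain ⟨P', hP', hr⟩ := exists_crel hP hinj
        obtain ⟨G', hG', hGe', hord'⟩ := hr.irr hG hGe hord p.p01 p.p02 p.p12
        have hq : Relation.ReflTransGen Quad (e, w) (cd i e w, wcr e i w) :=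
          Relation.ReflTransGen.single ⟨i, hinj, p, rfl⟩
        obtain ⟨c1, c2, c3⟩ := quad_inv hq
        simp only at c1 c2 c3
        rcases ih (cd i e w) hlt P' hP' (wcr e i w) G' hG' hGe' hord' with h | h
        · left
          rw [c2, c3] at h
          exact h
        · right
          rw [c2, c3] at h
          obtain ⟨P1, e1, w1, G1, a1, a2, a3, a4, a5, a6, a7, a8, a9⟩ := h
          refine ⟨P1, e1, w1, G1, a1, a2, a3, a4, a5, fun j => (a6 j).trans (hwle j), a7, a8, ?_⟩
          rcases a9 with a9 | a9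
          · exact Or.inl a9
          · rcases h3 with h3 | h3
            · left
              exact (card_mono3 fun j => (a6 j).trans (hwle j)).trans h3
            · right
              exact fun j hj => a9 j (h3 j hj)
    · -- a line
      left
      push Not at hpair
      obtain ⟨a, b, hab, hlt⟩ := hpair
      rcases pair_irr (inj_of_alg hP) hG hGe hord hab with h | ⟨he1, ha, hb⟩
      · omega
      · subst he1
        have ha1 : w a = 1 := le_antisymm (hwd a) ha
        have hb1 : w b = 1 := le_antisymm (hwd b) hb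
        have hz : ∀ l, l ≠ a → l ≠ b → w l = 0 := by
          intro l hla hlb
          by_contra hne
          have h1 : 1 ≤ w l := Nat.one_le_iff_ne_zero.2 hne
          refine line_two hP hG.ne_zero hGe ![a, b, l] (inj_cons hab hla.symm hlb.symm) ?_
          intro k
          fin_cases k
          · exact van_mono ha (hord a).1
          · exact van_mono hb (hord b).1
          · exact van_mono h1 (hord l).1
        have hwe : w = fun l => if l = a ∨ l = b then 1 else 0 := by
          funext l
          by_cases h : l = a ∨ l = b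
          · rw [if_pos h]
            rcases h with h | h
            · rw [h, ha1]
            · rw [h, hb1]
          · rw [if_neg h]
            push Not at h
            exact hz l h.1 h.2
        have hE := exc_line hP hab
        rw [← hwe] at hE
        exact ⟨self_iff.1 hE.self, can_iff.1 hE.can⟩

end Pool.Agent.TH167.T3
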